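import Mathlib

-- part MP_bcd555_gt.ExNerve
section

/-!
Description of the simplices of the second Ex of the nerve of a thin category as monotone maps on chains of chains.
-/

namespace Pool.Agent.MP_bcd555_gt

open CategoryTheory Simplicial Opposite PartialOrder

abbrev Ch (X : Type) [PartialOrder X] : Type := NonemptyFiniteChains X

abbrev U (n : ℕ) : Type := ULift.{0} (Fin (n + 1))

variable {X X' : Type} [PartialOrder X] [PartialOrder X']
variable {D : Type} [SmallCategory D]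

/-- the whole chain -/
def topCh (n : ℕ) : Ch (U n) where
  finset := Finset.univ
  nonempty := ⟨⟨0⟩, Finset.mem_univ _⟩
  comparable a b := le_total a b

lemma exists_enum (c : Ch X) : ∃ (k : ℕ) (t : Fin (k + 1) →o X),
    (∀ a b, t a ≤ t b → a ≤ b) ∧ ∀ x, x ∈ c.finset ↔ ∃ i, t i = x := by
  classical
  let : LinearOrder c.finset :=
    { (inferInstance : PartialOrder c.finset) with
      le_total := c.comparable
      toDecidableLE := Classical.decRel _ }
  obtain ⟨k, hk⟩ : ∃ k, Fintype.card c.finset = k + 1 := by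
    have : 0 < Fintype.card c.finset := by
      rw [Fintype.card_coe]; exact c.nonempty.card_pos
    exact ⟨_, (Nat.succ_pred_eq_of_pos this).symm⟩
  let e := monoEquivOfFin c.finset hk
  refine ⟨k, ⟨fun i => (e i : X), fun a b h => e.monotone h⟩, fun a b h => e.le_iff_le.mp h,
    fun x => ⟨fun hx => ⟨e.symm ⟨x, hx⟩, congrArg Subtype.val (e.apply_symm_apply ⟨x, hx⟩)⟩, ?_⟩⟩
  rintro ⟨i, rfl⟩
  exact (e i).2

/-- value on vertices of a map of nerves -/
def ev1 (φ : nerve X ⟶ nerve D) (x : X) : D :=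
  (φ.app (op ⦋0⦌) (ComposableArrows.mk₀ x) : ComposableArrows D 0).obj 0

lemma ev1_app (φ : nerve X ⟶ nerve D) {m : ℕ} (s : ComposableArrows X m) (i : Fin (m + 1)) :
    (φ.app (op ⦋m⦌) s : ComposableArrows D m).obj i = ev1 φ (s.obj i) := by
  have h := φ.naturality_apply (SimplexCategory.const ⦋0⦌ ⦋m⦌ i).op s
  have h2 : (nerve X).map (SimplexCategory.const ⦋0⦌ ⦋m⦌ i).op s =
      ComposableArrows.mk₀ (s.obj i) := ComposableArrows.ext₀ rfl
  rw [h2] at h
  unfold ev1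
  rw [h]
  rfl

lemma ev1_ext [Quiver.IsThin D] {φ ψ : nerve X ⟶ nerve D} (h : ∀ x, ev1 φ x = ev1 ψ x) :
    φ = ψ := by
  ext ⟨⟨m⟩⟩ : 1
  refine ConcreteCategory.hom_ext _ _ fun s => ?_
  have : (φ.app (op ⦋m⦌) s : ComposableArrows D m) = (ψ.app (op ⦋m⦌) s : ComposableArrows D m) :=
    CategoryTheory.Functor.ext (fun i => (ev1_app φ s i).trans ((h _).trans (ev1_app ψ s i).symm))
      (fun _ _ _ => Subsingleton.elim (α := (_ : D) ⟶ (_ : D)) _ _)
  exact this

lemma ev1_mono (φ : nerve X ⟶ nerve D) {x y : X} (h : x ≤ y) : Nonempty (ev1 φ x ⟶ ev1 φ y) := by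
  have h0 := ev1_app φ (ComposableArrows.mk₁ (homOfLE h)) 0
  have h1 := ev1_app φ (ComposableArrows.mk₁ (homOfLE h)) 1
  exact ⟨eqToHom h0.symm ≫ (φ.app (op ⦋1⦌) (ComposableArrows.mk₁ (homOfLE h)) :
    ComposableArrows D 1).map (homOfLE (by simp)) ≫ eqToHom h1⟩

/-- the functor attached to a monotone map into a thin category -/
noncomputable def funOf [Quiver.IsThin D] (F : X → D) (hF : ∀ a b, a ≤ b → Nonempty (F a ⟶ F b)) :
    X ⥤ D where
  obj := F
  map f := (hF _ _ (leOfHom f)).some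
  map_id _ := Subsingleton.elim _ _
  map_comp _ _ := Subsingleton.elim _ _

lemma ev1_nerveMap (G : X ⥤ D) (x : X) : ev1 (nerveMap G) x = G.obj x := rfl

lemma ev1_comp (G : X' ⥤ X) (φ : nerve X ⟶ nerve D) (x : X') :
    ev1 (nerveMap G ≫ φ) x = ev1 φ (G.obj x) := by
  unfold ev1
  rw [← nerveMap_app_mk₀]
  rfl

/-- the order map underlying a string of composable arrows in a poset -/
def ordOf {m : ℕ} (s : ComposableArrows X m) : U m →o X :=
  ⟨fun i => s.obj i.down, fun _ _ h => leOfHom (s.map (homOfLE h))⟩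

/-- the lifted order map -/
def upOf {a m : ℕ} (j : Fin (a + 1) →o Fin (m + 1)) : U a →o U m :=
  ⟨fun i => ⟨j i.down⟩, fun _ _ h => j.monotone h⟩

/-- the simplex of Ex of the nerve as a map of nerves -/
def dn {m : ℕ} (y : (SSet.ex.obj (nerve D)).obj (op ⦋m⦌)) : nerve (Ch (U m)) ⟶ nerve D := y.down

lemma ev1_ex_map {a m : ℕ} (j : Fin (a + 1) →o Fin (m + 1))
    (y : (SSet.ex.obj (nerve D)).obj (op ⦋m⦌)) (A : Ch (U a)) :
    ev1 (dn ((SSet.ex.obj (nerve D)).map (SimplexCategory.mkHom j).op y)) A =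
      ev1 (dn y) (A.map (upOf j)) :=
  ev1_comp (NonemptyFiniteChains.orderHomMap (upOf j)).monotone.functor (dn y) A

lemma ev1_app_comp (φ : nerve X ⟶ SSet.ex.obj (nerve D)) {a m : ℕ}
    (j : Fin (a + 1) →o Fin (m + 1)) (s : ComposableArrows X m) (s' : ComposableArrows X a)
    (h : ∀ i, s'.obj i = s.obj (j i)) (A : Ch (U a)) :
    ev1 (dn (φ.app (op ⦋a⦌) s')) A = ev1 (dn (φ.app (op ⦋m⦌) s)) (A.map (upOf j)) := by
  have h1 := φ.naturality_apply (SimplexCategory.mkHom j).op s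
  have h2 : (nerve X).map (SimplexCategory.mkHom j).op s = s' :=
    CategoryTheory.Functor.ext (fun i => (h i).symm) (fun _ _ _ => Subsingleton.elim _ _)
  rw [h2] at h1
  rw [← ev1_ex_map]
  exact congrArg (fun y => ev1 (dn y) A) h1

/-- value on chains of a map from a nerve to Ex of a nerve -/
noncomputable def ev2 (φ : nerve X ⟶ SSet.ex.obj (nerve D)) (c : Ch X) : D :=
  ev1 (dn (φ.app (op ⦋(exists_enum c).choose⦌)
    (exists_enum c).choose_spec.choose.monotone.functor)) (topCh _)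

lemma ev2_key_aux (φ : nerve X ⟶ SSet.ex.obj (nerve D)) {m : ℕ} (s : ComposableArrows X m)
    (A : Ch (U m)) {k : ℕ} (t : Fin (k + 1) →o X) (ht1 : ∀ a b, t a ≤ t b → a ≤ b)
    (ht2 : ∀ x, x ∈ (A.map (ordOf s)).finset ↔ ∃ i, t i = x) :
    ev1 (dn (φ.app (op ⦋m⦌) s)) A = ev1 (dn (φ.app (op ⦋k⦌) t.monotone.functor)) (topCh k) := by
  obtain ⟨a, j, hj1, hj2⟩ := exists_enum A
  let j' : Fin (a + 1) →o Fin (m + 1) := ⟨fun i => (j i).down, fun _ _ h => j.monotone h⟩
  have hp : ∀ i : Fin (a + 1), ∃ l, t l = s.obj (j' i) := fun i =>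
    (ht2 _).mp ((NonemptyFiniteChains.mem_map_iff _ _ _).mpr ⟨j i, (hj2 _).mpr ⟨i, rfl⟩, rfl⟩)
  choose p hp using hp
  let p' : Fin (a + 1) →o Fin (k + 1) := ⟨p, fun u v h => ht1 _ _ (by
    rw [hp, hp]; exact leOfHom (s.map (homOfLE (j'.monotone h))))⟩
  let s' : ComposableArrows X a := ((ordOf s).comp j).monotone.functor
  have e1 := ev1_app_comp φ j' s s' (fun _ => rfl) (topCh a)
  have e2 := ev1_app_comp φ p' t.monotone.functor s' (fun i => (hp i).symm) (topCh a)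
  have e3 : (topCh a).map (upOf j') = A := by
    ext x
    rw [NonemptyFiniteChains.mem_map_iff, hj2]
    constructor
    · rintro ⟨i, _, rfl⟩; exact ⟨i.down, rfl⟩
    · rintro ⟨i, rfl⟩; exact ⟨⟨i⟩, Finset.mem_univ _, rfl⟩
  have e4 : (topCh a).map (upOf p') = topCh k := by
    ext x
    rw [NonemptyFiniteChains.mem_map_iff]
    refine ⟨fun _ => Finset.mem_univ _, fun _ => ?_⟩
    obtain ⟨y, hy, hy2⟩ := (NonemptyFiniteChains.mem_map_iff _ _ _).mp
      ((ht2 (t x.down)).mpr ⟨_, rfl⟩)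
    obtain ⟨i, rfl⟩ := (hj2 _).mp hy
    refine ⟨⟨i⟩, Finset.mem_univ _, ?_⟩
    have h1 : t (p i) = t x.down := (hp i).trans hy2
    exact congrArg ULift.up (le_antisymm (ht1 _ _ h1.le) (ht1 _ _ h1.ge))
  rw [← e3, ← e1, e2, e4]

lemma ev2_key (φ : nerve X ⟶ SSet.ex.obj (nerve D)) {m : ℕ} (s : ComposableArrows X m)
    (A : Ch (U m)) : ev1 (dn (φ.app (op ⦋m⦌) s)) A = ev2 φ (A.map (ordOf s)) :=
  ev2_key_aux φ s A _ (exists_enum (A.map (ordOf s))).choose_spec.choose_spec.1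
    (exists_enum (A.map (ordOf s))).choose_spec.choose_spec.2

lemma ev2_ext [Quiver.IsThin D] {φ ψ : nerve X ⟶ SSet.ex.obj (nerve D)}
    (h : ∀ c, ev2 φ c = ev2 ψ c) : φ = ψ := by
  ext ⟨⟨m⟩⟩ s
  have : dn (φ.app (op ⦋m⦌) s) = dn (ψ.app (op ⦋m⦌) s) :=
    ev1_ext fun A => (ev2_key φ s A).trans ((h _).trans (ev2_key ψ s A).symm)
  exact congrArg ULift.up this

lemma exists_map_ordOf {c d : Ch X} (h : c ≤ d) : ∃ (m : ℕ) (s : ComposableArrows X m)
    (A : Ch (U m)), A.map (ordOf s) = c ∧ (topCh m).map (ordOf s) = d := by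
  classical
  obtain ⟨k, t, ht1, ht2⟩ := exists_enum d
  refine ⟨k, t.monotone.functor, ⟨Finset.univ.filter (fun i => t i.down ∈ c.finset), ?_,
    fun a b => le_total a b⟩, ?_, ?_⟩
  · obtain ⟨x, hx⟩ := c.nonempty
    obtain ⟨i, rfl⟩ := (ht2 x).mp (h hx)
    exact ⟨⟨i⟩, by simpa using hx⟩
  · ext x
    rw [NonemptyFiniteChains.mem_map_iff]
    constructor
    · rintro ⟨i, hi, rfl⟩
      exact (Finset.mem_filter.mp hi).2
    · intro hx
      obtain ⟨i, rfl⟩ := (ht2 x).mp (h hx)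
      exact ⟨⟨i⟩, by simpa using hx, rfl⟩
  · ext x
    rw [NonemptyFiniteChains.mem_map_iff, ht2]
    constructor
    · rintro ⟨i, _, rfl⟩; exact ⟨i.down, rfl⟩
    · rintro ⟨i, rfl⟩; exact ⟨⟨i⟩, Finset.mem_univ _, rfl⟩

lemma ev2_mono (φ : nerve X ⟶ SSet.ex.obj (nerve D)) {c d : Ch X} (h : c ≤ d) :
    Nonempty (ev2 φ c ⟶ ev2 φ d) := by
  obtain ⟨m, s, A, rfl, rfl⟩ := exists_map_ordOf h
  rw [← ev2_key, ← ev2_key]
  exact ev1_mono _ (Finset.subset_univ _)

lemma map_map {X'' : Type} [PartialOrder X''] (A : Ch X) (f : X →o X') (g : X' →o X'') :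
    (A.map f).map g = A.map (g.comp f) := by
  ext x
  simp

lemma ev2_comp (g : X' →o X) (φ : nerve X ⟶ SSet.ex.obj (nerve D)) (c : Ch X') :
    ev2 (nerveMap g.monotone.functor ≫ φ) c = ev2 φ (c.map g) := by
  obtain ⟨m, s, A, rfl, -⟩ := exists_map_ordOf (le_refl c)
  rw [← ev2_key, map_map]
  exact ev2_key φ (s ⋙ g.monotone.functor) A

/-- the map from a nerve to Ex of a nerve attached to a monotone map on chains -/
noncomputable def mk2 [Quiver.IsThin D] (F : Ch X → D)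
    (hF : ∀ a b, a ≤ b → Nonempty (F a ⟶ F b)) : nerve X ⟶ SSet.ex.obj (nerve D) where
  app := fun ⟨⟨m⟩⟩ => TypeCat.ofHom fun s => ULift.up (nerveMap (funOf (X := Ch (U m))
    (fun A => F (A.map (ordOf s)))
    (fun _ _ h => hF _ _ ((NonemptyFiniteChains.orderHomMap (ordOf s)).monotone h))))
  naturality := by
    rintro ⟨⟨m⟩⟩ ⟨⟨a⟩⟩ ⟨j⟩
    ext s
    refine congrArg ULift.up (ev1_ext (X := Ch (U a)) fun A => ?_)
    refine Eq.trans ?_ (ev1_comp
      (NonemptyFiniteChains.orderHomMap (upOf j.toOrderHom)).monotone.functor _ A).symm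
    exact congrArg F (map_map A (upOf j.toOrderHom) (ordOf s)).symm

lemma ev2_mk2 [Quiver.IsThin D] (F : Ch X → D)
    (hF : ∀ a b, a ≤ b → Nonempty (F a ⟶ F b)) (c : Ch X) : ev2 (mk2 F hF) c = F c := by
  obtain ⟨m, s, A, rfl, -⟩ := exists_map_ordOf (le_refl c)
  rw [← ev2_key]
  rfl

/-- the second Ex of the nerve -/
noncomputable abbrev EE (D : Type) [SmallCategory D] : SSet.{0} :=
  SSet.ex.obj (SSet.ex.obj (nerve D))

/-- value on chains of chains of a simplex of the second Ex of the nerve -/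
noncomputable def ev {n : ℕ} (x : (EE D).obj (op ⦋n⦌)) (c : Ch (Ch (U n))) : D :=
  ev2 (X := Ch (U n)) x.down c

lemma ev_ext [Quiver.IsThin D] {n : ℕ} {x y : (EE D).obj (op ⦋n⦌)} (h : ∀ c, ev x c = ev y c) :
    x = y :=
  congrArg ULift.up (ev2_ext (X := Ch (U n)) h)

lemma ev_mono {n : ℕ} (x : (EE D).obj (op ⦋n⦌)) {c d : Ch (Ch (U n))} (h : c ≤ d) :
    Nonempty (ev x c ⟶ ev x d) := ev2_mono _ h

lemma exists_ev [Quiver.IsThin D] {n : ℕ} (F : Ch (Ch (U n)) → D)
    (hF : ∀ a b, a ≤ b → Nonempty (F a ⟶ F b)) : ∃ x : (EE D).obj (op ⦋n⦌), ∀ c, ev x c = F c :=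
  ⟨ULift.up (mk2 F hF), ev2_mk2 F hF⟩

/-- the face inclusion on chains -/
noncomputable def face1 {n : ℕ} (j : Fin (n + 2)) : Ch (U n) →o Ch (U (n + 1)) :=
  NonemptyFiniteChains.orderHomMap (upOf j.succAboveOrderEmb.toOrderHom)

lemma ev_δ {n : ℕ} (x : (EE D).obj (op ⦋n + 1⦌)) (j : Fin (n + 2)) (c : Ch (Ch (U n))) :
    ev ((EE D).δ j x) c = ev x (c.map (face1 j)) :=
  ev2_comp (face1 j) x.down c

end Pool.Agent.MP_bcd555_gt

end

-- part MP_bcd555_gt.Kan
section

namespace Pool.Agent.MP_bcd555_gt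

open CategoryTheory Simplicial Opposite PartialOrder

variable {X X' : Type} [PartialOrder X] [PartialOrder X']

lemma exists_lift (f : X →o X') (hf : ∀ a b, f a ≤ f b → a ≤ b) (A : Ch X')
    (hA : ∀ y ∈ A.finset, ∃ x, f x = y) : ∃ B : Ch X, B.map f = A := by
  classical
  have hinj : Function.Injective f := fun a b h => le_antisymm (hf _ _ h.le) (hf _ _ h.ge)
  refine ⟨⟨A.finset.preimage f hinj.injOn, ?_, ?_⟩, ?_⟩
  · obtain ⟨y, hy⟩ := A.nonempty
    obtain ⟨x, rfl⟩ := hA y hy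
    exact ⟨x, Finset.mem_preimage.mpr hy⟩
  · rintro ⟨a, ha⟩ ⟨b, hb⟩
    rcases A.comparable ⟨_, Finset.mem_preimage.mp ha⟩ ⟨_, Finset.mem_preimage.mp hb⟩ with h | h
    · exact Or.inl (hf _ _ h)
    · exact Or.inr (hf _ _ h)
  · ext y
    rw [NonemptyFiniteChains.mem_map_iff]
    constructor
    · rintro ⟨x, hx, rfl⟩; exact (Finset.mem_preimage (hf := hinj.injOn)).mp hx
    · intro hy
      obtain ⟨x, rfl⟩ := hA y hy
      exact ⟨x, (Finset.mem_preimage (hf := hinj.injOn)).mpr hy, rfl⟩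

lemma map_reflect (f : X →o X') (hf : ∀ a b, f a ≤ f b → a ≤ b) (A B : Ch X)
    (h : A.map f ≤ B.map f) : A ≤ B := by
  intro x hx
  obtain ⟨y, hy, hxy⟩ := (NonemptyFiniteChains.mem_map_iff _ _ _).mp
    (h ((NonemptyFiniteChains.mem_map_iff A f (f x)).mpr ⟨x, hx, rfl⟩))
  rwa [← le_antisymm (hf _ _ hxy.le) (hf _ _ hxy.ge)]

lemma upOf_reflect {n : ℕ} (j : Fin (n + 2)) (a b : U n)
    (h : upOf j.succAboveOrderEmb.toOrderHom a ≤ upOf j.succAboveOrderEmb.toOrderHom b) : a ≤ b :=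
  j.succAboveOrderEmb.le_iff_le.mp (show j.succAboveOrderEmb a.down ≤ j.succAboveOrderEmb b.down from h)

lemma face1_reflect {n : ℕ} (j : Fin (n + 2)) (A B : Ch (U n)) (h : face1 j A ≤ face1 j B) :
    A ≤ B :=
  map_reflect _ (upOf_reflect j) A B h

lemma mem_face1 {n : ℕ} (j : Fin (n + 2)) (A : Ch (U n)) (x : U (n + 1)) :
    x ∈ (face1 j A).finset ↔ ∃ y ∈ A.finset, ULift.up (j.succAbove y.down) = x :=
  NonemptyFiniteChains.mem_map_iff _ _ _

lemma not_mem_face1 {n : ℕ} (j : Fin (n + 2)) (A : Ch (U n)) : ULift.up j ∉ (face1 j A).finset := by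
  rw [mem_face1]
  rintro ⟨y, _, hy⟩
  exact Fin.succAbove_ne j y.down (congrArg ULift.down hy)

lemma exists_face1 {n : ℕ} (j : Fin (n + 2)) (A : Ch (U (n + 1))) (h : ULift.up j ∉ A.finset) :
    ∃ B, face1 j B = A := by
  apply exists_lift _ (upOf_reflect j)
  intro y hy
  have : y.down ≠ j := fun e => h (e ▸ hy)
  obtain ⟨z, hz⟩ := Fin.exists_succAbove_eq this
  exact ⟨⟨z⟩, congrArg ULift.up hz⟩

lemma exists_face2 {n : ℕ} (j : Fin (n + 2)) (c : Ch (Ch (U (n + 1))))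
    (h : ∀ A ∈ c.finset, ULift.up j ∉ A.finset) : ∃ a : Ch (Ch (U n)), a.map (face1 j) = c :=
  exists_lift _ (face1_reflect j) c fun A hA => exists_face1 j A (h A hA)

lemma not_mem_face2 {n : ℕ} (j : Fin (n + 2)) (a : Ch (Ch (U n))) :
    ∀ A ∈ (a.map (face1 j)).finset, ULift.up j ∉ A.finset := by
  intro A hA
  obtain ⟨B, _, rfl⟩ := (NonemptyFiniteChains.mem_map_iff _ _ _).mp hA
  exact not_mem_face1 j B

lemma face2_inj {n : ℕ} (j : Fin (n + 2)) {a b : Ch (Ch (U n))}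
    (h : a.map (face1 j) = b.map (face1 j)) : a = b :=
  le_antisymm (map_reflect _ (face1_reflect j) _ _ h.le) (map_reflect _ (face1_reflect j) _ _ h.ge)

variable {D : Type} [SmallCategory D]

/-- the values on two faces of a horn agree on their common chains -/
lemma compat {n : ℕ} {i : Fin (n + 2)} {f : ∀ (j : Fin (n + 2)) (_ : j ≠ i), Δ[n] ⟶ EE D}
    (hf : SSet.horn.IsCompatible f) (j k : Fin (n + 2)) (hj : j ≠ i) (hk : k ≠ i)
    (a b : Ch (Ch (U n))) (h : a.map (face1 j) = b.map (face1 k)) :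
    ev (SSet.yonedaEquiv (f j hj)) a = ev (SSet.yonedaEquiv (f k hk)) b := by
  wlog hjk : j ≤ k generalizing j k a b
  · exact (this k j hk hj b a h.symm (le_of_not_ge hjk)).symm
  rcases hjk.eq_or_lt with rfl | hjk
  · rw [face2_inj j h]
  obtain _ | n := n
  · exfalso
    obtain ⟨A, hA⟩ := (a.map (face1 j)).nonempty
    have h1 := not_mem_face2 j a A hA
    have h2 := not_mem_face2 k b A (h ▸ hA)
    obtain ⟨⟨x⟩, hx⟩ := A.nonempty
    have : x = j ∨ x = k := by omega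
    rcases this with rfl | rfl
    · exact h1 hx
    · exact h2 hx
  have h1 := congrArg SSet.yonedaEquiv (hf.δ_pred_comp j k hj hk hjk)
  rw [SSet.stdSimplex.yonedaEquiv_δ_comp, SSet.stdSimplex.yonedaEquiv_δ_comp] at h1
  obtain ⟨j, rfl⟩ := j.eq_castSucc_of_ne_last (Fin.ne_last_of_lt hjk)
  obtain ⟨k, rfl⟩ := k.eq_succ_of_ne_zero (Fin.ne_zero_of_lt hjk)
  rw [Fin.pred_succ, Fin.castPred_castSucc] at h1
  have hjk' : j ≤ k := Fin.castSucc_lt_succ_iff.mp hjk
  have hcomm : ∀ x : Fin (n + 1), j.castSucc.succAbove (k.succAbove x) =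
      k.succ.succAbove (j.succAbove x) := fun x =>
    (Fin.succAbove_succAbove_succAbove_predAbove _ _ _).symm.trans (by
      rw [Fin.succAbove_castSucc_of_le _ _ hjk', Fin.predAbove_of_le_castSucc _ _
        (Fin.castSucc_le_castSucc_iff.mpr hjk'), Fin.castPred_castSucc])
  obtain ⟨e, rfl⟩ := exists_face2 k a (by
    intro A hA hk'
    have h2 : face1 j.castSucc A ∈ (a.map (face1 j.castSucc)).finset :=
      (NonemptyFiniteChains.mem_map_iff _ _ _).mpr ⟨A, hA, rfl⟩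
    apply not_mem_face2 k.succ b _ (h ▸ h2)
    exact (mem_face1 _ _ _).mpr ⟨_, hk', congrArg ULift.up (Fin.succAbove_castSucc_of_le _ _ hjk')⟩)
  have h3 : b = e.map (face1 j) := by
    apply face2_inj k.succ
    rw [← h, map_map, map_map]
    congr 1
    ext A : 2
    change face1 j.castSucc (face1 k A) = face1 k.succ (face1 j A)
    ext x
    simp only [mem_face1]
    constructor
    · rintro ⟨_, ⟨y, hy, rfl⟩, rfl⟩
      exact ⟨_, ⟨y, hy, rfl⟩, congrArg ULift.up (hcomm _).symm⟩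
    · rintro ⟨_, ⟨y, hy, rfl⟩, rfl⟩
      exact ⟨_, ⟨y, hy, rfl⟩, congrArg ULift.up (hcomm _)⟩
  rw [h3, ← ev_δ, ← ev_δ, h1]

/-- sufficient condition for the second Ex of the nerve of a thin category to be Kan -/
theorem kan_of_retraction [Quiver.IsThin D] (m : D) (r : D → D)
    (h1 : ∀ z, Nonempty (z ⟶ r z)) (h2 : ∀ z, Nonempty (m ⟶ r z))
    (h3 : ∀ z w, Nonempty (z ⟶ w) → Nonempty (r z ⟶ r w)) : SSet.KanComplex (EE D) := by
  classical
  rw [SSet.KanComplex.iff]
  intro n i f hf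
  have tr : ∀ {u v w : D}, Nonempty (u ⟶ v) → Nonempty (v ⟶ w) → Nonempty (u ⟶ w) :=
    fun ⟨p⟩ ⟨q⟩ => ⟨p ≫ q⟩
  let H : Ch (Ch (U (n + 1))) → Prop := fun c =>
    ∃ j : Fin (n + 2), j ≠ i ∧ ∃ a : Ch (Ch (U n)), a.map (face1 j) = c
  let G : Ch (Ch (U (n + 1))) → D := fun c =>
    if h : H c then ev (SSet.yonedaEquiv (f h.choose h.choose_spec.1)) h.choose_spec.2.choose else m
  have hG : ∀ (j : Fin (n + 2)) (hj : j ≠ i) (a : Ch (Ch (U n))),
      G (a.map (face1 j)) = ev (SSet.yonedaEquiv (f j hj)) a := by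
    intro j hj a
    have h : H (a.map (face1 j)) := ⟨j, hj, a, rfl⟩
    simp only [G, dif_pos h]
    exact compat hf _ _ _ _ _ _ h.choose_spec.2.choose_spec
  have Hdown : ∀ c d, c ≤ d → H d → H c := by
    rintro c d hcd ⟨j, hj, a, rfl⟩
    exact ⟨j, hj, exists_face2 j c fun A hA => not_mem_face2 j a A (hcd hA)⟩
  have Gmono : ∀ c d, c ≤ d → H d → Nonempty (G c ⟶ G d) := by
    rintro c d hcd ⟨j, hj, a, rfl⟩
    obtain ⟨b, rfl⟩ := exists_face2 j c fun A hA => not_mem_face2 j a A (hcd hA)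
    rw [hG j hj, hG j hj]
    exact ev_mono _ (map_reflect _ (face1_reflect j) _ _ hcd)
  let good : Ch (U (n + 1)) → Prop := fun A => ∃ j : Fin (n + 2), j ≠ i ∧ ULift.up j ∉ A.finset
  let cut : ∀ c : Ch (Ch (U (n + 1))), (c.finset.filter good).Nonempty → Ch (Ch (U (n + 1))) :=
    fun c h => ⟨c.finset.filter good, h, fun a b =>
      c.comparable ⟨a, (Finset.mem_filter.mp a.2).1⟩ ⟨b, (Finset.mem_filter.mp b.2).1⟩⟩
  have Hcut : ∀ c h, H (cut c h) := by
    intro c h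
    obtain ⟨A, hA, hmax⟩ := (c.finset.filter good).exists_maximal h
    obtain ⟨hA1, j, hj, hjA⟩ := Finset.mem_filter.mp hA
    refine ⟨j, hj, exists_face2 j _ fun B hB hjB => hjA ?_⟩
    rcases c.comparable ⟨A, hA1⟩ ⟨B, (Finset.mem_filter.mp hB).1⟩ with h | h
    · exact hmax hB h hjB
    · exact h hjB
  let F : Ch (Ch (U (n + 1))) → D := fun c =>
    if H c then G c else if h : (c.finset.filter good).Nonempty then r (G (cut c h)) else m
  have hF : ∀ c d, c ≤ d → Nonempty (F c ⟶ F d) := by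
    intro c d hcd
    by_cases hd : H d
    · simp only [F, if_pos hd, if_pos (Hdown c d hcd hd)]
      exact Gmono c d hcd hd
    by_cases hc : H c
    · have hsub : c.finset ⊆ d.finset.filter good := by
        intro A hA
        obtain ⟨j, hj, a, rfl⟩ := hc
        exact Finset.mem_filter.mpr ⟨hcd hA, j, hj, not_mem_face2 j a A hA⟩
      have hne : (d.finset.filter good).Nonempty := c.nonempty.mono hsub
      simp only [F, if_pos hc, if_neg hd, dif_pos hne]
      exact tr (Gmono c (cut d hne) hsub (Hcut d hne)) (h1 _)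
    have hsub : c.finset.filter good ⊆ d.finset.filter good := Finset.filter_subset_filter _ hcd
    by_cases hc' : (c.finset.filter good).Nonempty
    · have hne := hc'.mono hsub
      simp only [F, if_neg hc, if_neg hd, dif_pos hne, dif_pos hc']
      exact h3 _ _ (Gmono (cut c hc') (cut d hne) hsub (Hcut d hne))
    · simp only [F, if_neg hc, if_neg hd, dif_neg hc']
      split_ifs
      · exact h2 _
      · exact ⟨𝟙 _⟩
  obtain ⟨x, hx⟩ := exists_ev F hF
  refine ⟨SSet.yonedaEquiv.symm x, fun j hj => ?_⟩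
  apply SSet.yonedaEquiv.injective
  rw [SSet.stdSimplex.yonedaEquiv_δ_comp, Equiv.apply_symm_apply]
  apply ev_ext
  intro a
  have h : H (a.map (face1 j)) := ⟨j, hj, a, rfl⟩
  rw [ev_δ, hx]
  simp only [F, if_pos h]
  exact hG j hj a

/-- a one element chain -/
def sing (x : X) : Ch X := ⟨{x}, Finset.singleton_nonempty x, fun a b => Or.inl (by
  have ha := Finset.mem_singleton.mp a.2
  have hb := Finset.mem_singleton.mp b.2
  exact le_of_eq (Subtype.ext (ha.trans hb.symm)))⟩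

lemma mem_sing {x y : X} : y ∈ (sing x).finset ↔ y = x := Finset.mem_singleton

lemma sing_map (x : X) (f : X →o X') : (sing x).map f = sing (f x) := by
  ext y
  simp [mem_sing, eq_comm]

/-- a vertex of the simplex, seen in the second subdivision -/
def vtx (n : ℕ) (k : Fin (n + 1)) : Ch (Ch (U n)) := sing (sing ⟨k⟩)

lemma vtx_map {n : ℕ} (k : Fin (n + 1)) (j : Fin (n + 2)) :
    (vtx n k).map (face1 j) = vtx (n + 1) (j.succAbove k) := by
  rw [vtx, sing_map]
  exact congrArg sing (sing_map _ _)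

lemma eq_vtx_zero (c : Ch (Ch (U 0))) : c = vtx 0 0 := by
  have h : ∀ A : Ch (U 0), A = sing ⟨0⟩ := by
    intro A
    ext x
    rw [mem_sing]
    obtain ⟨y, hy⟩ := A.nonempty
    have h1 : ∀ z : U 0, z = ⟨0⟩ := fun z => congrArg ULift.up (Fin.eq_zero z.down)
    exact ⟨fun _ => h1 x, fun _ => by rw [h1 x, ← h1 y]; exact hy⟩
  ext A
  rw [vtx, mem_sing]
  obtain ⟨B, hB⟩ := c.nonempty
  exact ⟨fun _ => h A, fun _ => by rw [h A, ← h B]; exact hB⟩

lemma exists_edge [Quiver.IsThin D] {u v w : D} (hu : Nonempty (w ⟶ u)) (hv : Nonempty (w ⟶ v)) :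
    ∃ e : (EE D).obj (op ⦋1⦌), ev e (vtx 1 0) = u ∧ ev e (vtx 1 1) = v := by
  classical
  have hne : (sing ⟨0⟩ : Ch (U 1)) ≠ sing ⟨1⟩ := by
    intro h
    have : (⟨0⟩ : U 1) ∈ (sing ⟨1⟩ : Ch (U 1)).finset := h ▸ mem_sing.mpr rfl
    exact absurd (congrArg ULift.down (mem_sing.mp this)) (by decide)
  obtain ⟨e, he⟩ := exists_ev (n := 1) (D := D) (fun c => if sing ⟨0⟩ ∈ c.finset then u else
      if sing ⟨1⟩ ∈ c.finset then v else w) (by
    intro c d hcd
    by_cases h0 : sing ⟨0⟩ ∈ c.finset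
    · simp only [if_pos h0, if_pos (hcd h0)]; exact ⟨𝟙 _⟩
    by_cases h1 : sing ⟨1⟩ ∈ c.finset
    · have h2 : sing ⟨0⟩ ∉ d.finset := by
        intro h2
        rcases d.comparable ⟨_, h2⟩ ⟨_, hcd h1⟩ with h | h
        · exact absurd (congrArg ULift.down (mem_sing.mp (h (mem_sing.mpr rfl)))) (by decide)
        · exact absurd (congrArg ULift.down (mem_sing.mp (h (mem_sing.mpr rfl)))) (by decide)
      simp only [if_neg h0, if_pos h1, if_neg h2, if_pos (hcd h1)]; exact ⟨𝟙 _⟩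
    simp only [if_neg h0, if_neg h1]
    split_ifs
    · exact hu
    · exact hv
    · exact ⟨𝟙 _⟩)
  refine ⟨e, ?_, ?_⟩
  · rw [he, vtx, if_pos (mem_sing.mpr rfl)]
  · rw [he, vtx, if_neg (fun h => hne (mem_sing.mp h)), if_pos (mem_sing.mpr rfl)]

/-- necessary condition for the second Ex of the nerve of a thin category to be Kan -/
theorem zigzag_of_kan [Quiver.IsThin D] (hK : SSet.KanComplex (EE D)) {x a m b y : D}
    (h1 : Nonempty (a ⟶ x)) (h2 : Nonempty (a ⟶ m)) (h3 : Nonempty (b ⟶ m))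
    (h4 : Nonempty (b ⟶ y)) :
    ∃ p q s : D, Nonempty (x ⟶ p) ∧ Nonempty (q ⟶ p) ∧ Nonempty (q ⟶ s) ∧ Nonempty (y ⟶ s) := by
  obtain ⟨e2, he2, he2'⟩ := exists_edge h1 h2
  obtain ⟨e0, he0, he0'⟩ := exists_edge h3 h4
  let f : ∀ (j : Fin 3) (_ : j ≠ 1), Δ[1] ⟶ EE D := fun j _ =>
    SSet.yonedaEquiv.symm (if j = 0 then e0 else e2)
  have hf : SSet.horn.IsCompatible f := by
    rw [SSet.horn.isCompatible_iff]
    intro j k hj hk hjk
    obtain ⟨rfl, rfl⟩ : j = 0 ∧ k = 2 := by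
      revert j k
      decide
    apply SSet.yonedaEquiv.injective
    rw [SSet.stdSimplex.yonedaEquiv_δ_comp, SSet.stdSimplex.yonedaEquiv_δ_comp,
      Equiv.apply_symm_apply, Equiv.apply_symm_apply]
    apply ev_ext
    intro c
    rw [ev_δ, ev_δ, eq_vtx_zero c, vtx_map, vtx_map]
    exact he0.trans he2'.symm
  obtain ⟨φ, hφ⟩ := (SSet.KanComplex.iff.mp hK) f hf
  have k0 := congrArg SSet.yonedaEquiv (hφ 0 (by decide))
  have k2 := congrArg SSet.yonedaEquiv (hφ 2 (by decide))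
  rw [SSet.stdSimplex.yonedaEquiv_δ_comp, Equiv.apply_symm_apply] at k0 k2
  set t := SSet.yonedaEquiv φ
  have hx : ev t (vtx 2 0) = x := by
    have := ev_δ t 2 (vtx 1 0)
    rw [k2, vtx_map] at this
    exact this.symm.trans he2
  have hy : ev t (vtx 2 2) = y := by
    have := ev_δ t 0 (vtx 1 1)
    rw [k0, vtx_map] at this
    exact this.symm.trans he0'
  classical
  let pr : ∀ k : Fin 3, Ch (Ch (U 2)) := fun k => ⟨{sing ⟨k⟩, topCh 2}, by simp, by
    rintro ⟨A, hA⟩ ⟨B, hB⟩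
    rcases Finset.mem_insert.mp hB with rfl | hB'
    · rcases Finset.mem_insert.mp hA with rfl | hA'
      · exact Or.inl le_rfl
      · obtain rfl := Finset.mem_singleton.mp hA'
        exact Or.inr (Finset.subset_univ _)
    · obtain rfl := Finset.mem_singleton.mp hB'
      exact Or.inl (Finset.subset_univ _)⟩
  have l1 : ∀ k, vtx 2 k ≤ pr k := fun k A hA => by
    obtain rfl := mem_sing.mp hA
    exact Finset.mem_insert_self _ _
  have l2 : ∀ k, sing (topCh 2) ≤ pr k := fun k A hA => by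
    obtain rfl := mem_sing.mp hA
    exact Finset.mem_insert_of_mem (Finset.mem_singleton_self _)
  exact ⟨ev t (pr 0), ev t (sing (topCh 2)), ev t (pr 2), hx ▸ ev_mono t (l1 0),
    ev_mono t (l2 0), ev_mono t (l2 2), hy ▸ ev_mono t (l1 2)⟩

end Pool.Agent.MP_bcd555_gt

end

-- part MP_bcd555_gt.Fence
section

namespace Pool.Agent.MP_bcd555_gt

open CategoryTheory Opposite

/-- the five element fence -/
inductive Fence where
  | x : Fence
  | a : Fence
  | m : Fence
  | b : Fence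
  | y : Fence
  deriving DecidableEq, Fintype

/-- the order of the fence -/
def Fence.le : Fence → Fence → Bool
  | .x, .x => true
  | .a, .a => true
  | .m, .m => true
  | .b, .b => true
  | .y, .y => true
  | .x, .a => true
  | .m, .a => true
  | .m, .b => true
  | .y, .b => true
  | _, _ => false

instance : PartialOrder Fence where
  le u v := Fence.le u v = true
  le_refl := by decide
  le_trans := by decide
  le_antisymm := by decide

instance : DecidableLE Fence := fun u v => inferInstanceAs (Decidable (Fence.le u v = true))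

/-- join with the middle element -/
def Fence.r : Fence → Fence
  | .x => .a
  | .a => .a
  | .m => .m
  | .b => .b
  | .y => .b

lemma hom_iff {u v : Fence} : Nonempty (u ⟶ v) ↔ u ≤ v :=
  ⟨fun ⟨f⟩ => leOfHom f, fun h => ⟨homOfLE h⟩⟩

lemma hom_op_iff {u v : Fenceᵒᵖ} : Nonempty (u ⟶ v) ↔ v.unop ≤ u.unop :=
  ⟨fun ⟨f⟩ => leOfHom f.unop, fun h => ⟨(homOfLE h).op⟩⟩

theorem kan_fence : SSet.KanComplex (EE Fence) := by
  apply kan_of_retraction Fence.m Fence.r <;> simp only [hom_iff] <;> decide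

theorem not_kan_fence_op : ¬ SSet.KanComplex (EE Fenceᵒᵖ) := by
  intro h
  obtain ⟨⟨p⟩, ⟨q⟩, ⟨s⟩, hpqs⟩ := zigzag_of_kan h (x := op .x) (a := op .a) (m := op .m)
    (b := op .b) (y := op .y) (hom_op_iff.mpr (by decide)) (hom_op_iff.mpr (by decide))
    (hom_op_iff.mpr (by decide)) (hom_op_iff.mpr (by decide))
  simp only [hom_op_iff] at hpqs
  revert p q s
  decide

end Pool.Agent.MP_bcd555_gt

end
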